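import Mathlib
import Pool.Agent.Run7.h14.PqDec
import Pool.Agent.Run7.h14.PqOri

set_option autoImplicit false

/-!
# Eulerian graphs of maximum degree four have path odd-cover number at most three

1. The edge set is the disjoint union of two sets `A`, `B` of maximum degree two (balanced orientation and a
   proper two-colouring of its arcs).
2. For suitable sets `EA`, `EB` containing one edge from every cycle of `A` and of `B`, possibly after moving one
   edge, the sets `A \ EA`, `B \ EB`, `EA ∪ EB` are three linear forests such that the number of vertices that are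
   ends in the first and in the second one is odd.
3. Such a triple of linear forests is linked to three paths: two common ends of two of the forests are joined by
   an edge that is added to both; the triple has exactly one common end left for each pair of forests at the end.
-/

namespace Pool.Agent.Results.MP_4dfdc8_co.ThreePaths

/-- `G` is the sum modulo two of `k` paths, each with at least one edge, of the complete graph on its vertex set:
two vertices are adjacent in `G` if and only if they are consecutive on an odd number of the paths. -/
def HasPathOddCover {V : Type*} (G : SimpleGraph V) (k : ℕ) : Prop :=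
  ∃ (a b : Fin k → V) (p : ∀ i : Fin k, (⊤ : SimpleGraph V).Walk (a i) (b i)),
    (∀ i, (p i).IsPath ∧ a i ≠ b i) ∧
    ∀ x y : V, G.Adj x y ↔ Odd (Nat.card {i : Fin k // s(x, y) ∈ (p i).edges})

/-- The path odd-cover number. -/
noncomputable def pathOddCoverNumber {V : Type*} (G : SimpleGraph V) : ℕ :=
  sInf {k | HasPathOddCover G k}

open Run7.h14.Pq Finset in
theorem result {V : Type*} [Fintype V] (G : SimpleGraph V) [DecidableRel G.Adj]
    (heven : ∀ v, Even (G.degree v)) (hmax : G.maxDegree = 4) :
    HasPathOddCover G 3 ∧ pathOddCoverNumber G ≤ 3 := by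
  classical
  have main : HasPathOddCover G 3 := by
    have hdg : ∀ v, dg G.edgeFinset v = G.degree v := by
      intro v
      rw [← SimpleGraph.card_incidenceFinset_eq_degree, SimpleGraph.incidenceFinset_eq_filter]
      rfl
    have hne : Nonempty V := by
      by_contra h
      rw [not_nonempty_iff] at h
      have : G.maxDegree = 0 := by
        apply Nat.eq_zero_of_le_zero
        apply SimpleGraph.maxDegree_le_of_forall_degree_le
        intro v
        exact h.elim v
      omega
    obtain ⟨x, hx⟩ := G.exists_maximal_degree_vertex
    have hll : LL G.edgeFinset := by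
      intro e he
      rw [SimpleGraph.mem_edgeFinset] at he
      exact G.not_isDiag_of_mem_edgeSet he
    obtain ⟨A, B, hA, hB, hAB, hun⟩ := exists_split (E := G.edgeFinset) hll
      (fun v => by rw [hdg]; exact heven v)
      (fun v => by rw [hdg, ← hmax]; exact G.degree_le_maxDegree v)
    have hadd : ∀ v, dg A v + dg B v = G.degree v := by
      intro v
      rw [← dg_union hAB, hun, hdg]
    obtain ⟨F, G', H, t, hX, ho⟩ := decomp hA hB hAB
      (fun v => by rw [hadd]; exact heven v) (x := x) (by rw [hadd, ← hx, hmax])
    obtain ⟨P, Q, R, ⟨a1, b1, p1, hp1, n1, e1⟩, ⟨a2, b2, p2, hp2, n2, e2⟩,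
      ⟨a3, b3, p3, hp3, n3, e3⟩, hPQR⟩ := link' t ho
    rw [hX, hun] at hPQR
    refine ⟨![a1, a2, a3], ![b1, b2, b3],
      fun i => match i with
        | 0 => p1
        | 1 => p2
        | 2 => p3, ?_, ?_⟩
    · intro i
      fin_cases i
      · exact ⟨hp1, n1⟩
      · exact ⟨hp2, n2⟩
      · exact ⟨hp3, n3⟩
    · intro x y
      rw [← SimpleGraph.mem_edgeSet, ← SimpleGraph.mem_edgeFinset, ← hPQR, Nat.card_eq_fintype_card,
        Fintype.card_subtype, Finset.card_filter, Fin.sum_univ_three]
      simp only [mem_symmDiff]
      have f1 := e1 s(x, y)
      have f2 := e2 s(x, y)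
      have f3 := e3 s(x, y)
      rw [← f1, ← f2, ← f3]
      by_cases c1 : s(x, y) ∈ p1.edges <;> by_cases c2 : s(x, y) ∈ p2.edges <;>
        by_cases c3 : s(x, y) ∈ p3.edges <;> simp [c1, c2, c3] <;> decide
  exact ⟨main, Nat.sInf_le main⟩

end Pool.Agent.Results.MP_4dfdc8_co.ThreePaths
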